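import Mathlib
import Pool.Agent.H35.VCDefs
import Pool.Agent.H35.VCProof

set_option autoImplicit false

namespace Pool.Agent.Results.MP_19d06a_co.Unbounded

open Pool.Agent.H35.VC

/-- For every rank `k ≥ 4` and every class `s ≥ 1` the VC-dimension of the translates of a
progression of rank `k` in an `s`-nilpotent group is unbounded. -/
theorem result : ∀ k s : ℕ, 4 ≤ k → 1 ≤ s → ∀ C : ℕ,
    ∃ (G : Type) (_ : Group G), Group.IsNilpotent G ∧ Group.nilpotencyClass G ≤ s ∧
      ∃ (a : Fin k → G) (N : Fin k → ℕ) (Y : Finset G),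
        C < Y.card ∧ TranslatesShatter (Prog a N) Y := by
  intro k s hk hs C
  obtain ⟨m, rfl⟩ : ∃ m, k = m + 4 := ⟨k - 4, by omega⟩
  obtain ⟨G, _, h⟩ := main m C
  exact ⟨G, inferInstance, inferInstance, CommGroup.nilpotencyClass_le_one.trans hs, h⟩

end Pool.Agent.Results.MP_19d06a_co.Unbounded
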